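import Pool.Agent.U979.HR.Core

set_option autoImplicit false

/-!
# Matrices of logarithms of extremal rank (helper979): the abstract theorem

`E` is a field of characteristic zero with an embedding in the complex numbers which maps the rational space `Λ` to
a space for which the linear subgroup theorem holds.
-/

namespace Pool.Agent.U979.HR
open Module Finset
open Pool.Agent.W254.PA (ObsProp)
open Pool.Agent.Y787.AS

variable {E : Type} [Field E] [CharZero E]

/-- the value of the bilinear form of `M` at rational vectors -/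
def bil {m n : ℕ} (M : Matrix (Fin m) (Fin n) E) (w : Fin m → ℚ) (v : Fin n → ℚ) : E :=
  ∑ i, ∑ j, (w i : E) * M i j * (v j : E)

/-- no rational zero -/
def NoZ {m n : ℕ} (M : Matrix (Fin m) (Fin n) E) : Prop :=
  ∀ (w : Fin m → ℚ) (v : Fin n → ℚ), w ≠ 0 → v ≠ 0 → bil M w v ≠ 0

/-- the linear subgroup theorem for `Λ` through an embedding in the complex numbers -/
def Emb (Λ : Submodule ℚ E) : Prop :=
  ∃ (Θ : E →+* ℂ) (𝓛 : Submodule ℚ ℂ), ObsProp 𝓛 ∧ ∀ z ∈ Λ, Θ z ∈ 𝓛

/-- the kernels of `x` over `M` and of `M` agree, so the ranks agree -/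
theorem rank_cons {m n : ℕ} (M : Matrix (Fin m) (Fin n) E) (x : Fin n → E)
    (hx : ∀ k : Fin n → E, M.mulVec k = 0 → ∑ j, x j * k j = 0) :
    (Matrix.of (Fin.cons x M : Fin (m + 1) → Fin n → E)).rank = M.rank := by
  classical
  set M' : Matrix (Fin (m + 1)) (Fin n) E := Matrix.of (Fin.cons x M : Fin (m + 1) → Fin n → E)
    with hM'
  have h1 := LinearMap.finrank_range_add_finrank_ker M'.mulVecLin
  have h2 := LinearMap.finrank_range_add_finrank_ker M.mulVecLin
  have h3 : LinearMap.ker M'.mulVecLin = LinearMap.ker M.mulVecLin := by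
    ext k
    simp only [LinearMap.mem_ker, Matrix.mulVecLin_apply]
    constructor
    · intro h
      funext i
      have := congrFun h i.succ
      simpa [hM', Matrix.mulVec, dotProduct] using this
    · intro h
      funext i
      refine Fin.cases ?_ (fun j => ?_) i
      · have := hx k h
        simpa [hM', Matrix.mulVec, dotProduct] using this
      · have := congrFun h j
        simpa [hM', Matrix.mulVec, dotProduct] using this
  rw [h3] at h1
  unfold Matrix.rank
  omega

theorem sum_int {m n : ℕ} (M : Matrix (Fin m) (Fin n) E) (a : Fin m → ℤ) (s : Fin n → ℤ) :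
    bil M (fun i => (a i : ℚ)) (fun j => (s j : ℚ)) =
      ∑ i, ∑ j, (a i : E) * (s j : E) * M i j := by
  unfold bil
  refine Finset.sum_congr rfl fun i _ => Finset.sum_congr rfl fun j _ => ?_
  rw [Rat.cast_intCast, Rat.cast_intCast, mul_right_comm]

theorem cast_ne {c : ℕ} {a : Fin c → ℤ} (h : a ≠ 0) : (fun i => (a i : ℚ)) ≠ 0 := by
  intro h0
  apply h
  funext i
  exact Int.cast_eq_zero.1 (congrFun h0 i)

/-- **Saturation.** -/
theorem saturated {Λ : Submodule ℚ E} (hE : Emb Λ) {m n r : ℕ} (hr : 1 ≤ r)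
    (hmn : r * (m + n) = m * n) (M : Matrix (Fin m) (Fin n) E) (hM : ∀ i j, M i j ∈ Λ)
    (hrk : M.rank ≤ r) (hz : NoZ M) (x : Fin n → E) (hxΛ : ∀ j, x j ∈ Λ)
    (hx : ∀ k : Fin n → E, M.mulVec k = 0 → ∑ j, x j * k j = 0) :
    ∃ w : Fin m → ℚ, ∀ j, x j = ∑ i, (w i : E) * M i j := by
  classical
  obtain ⟨Θ, 𝓛, hO, hΘ⟩ := hE
  have hrk' : (Matrix.of (Fin.cons x M : Fin (m + 1) → Fin n → E)).rank ≤ r :=
    (rank_cons M x hx).le.trans hrk
  obtain ⟨X, Y, hXY⟩ := rank_fac _ hrk'
  obtain ⟨c, a, hc, h⟩ := sat hO hr hmn (fun i j => Θ (M i j)) (fun i j => hΘ _ (hM i j)) (by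
      intro a s ha hs h
      refine hz _ _ (cast_ne ha) (cast_ne hs) ?_
      rw [sum_int]
      apply Θ.injective
      rw [map_zero, ← h, val, map_sum]
      refine Finset.sum_congr rfl fun i _ => ?_
      rw [map_sum]
      refine Finset.sum_congr rfl fun j _ => ?_
      simp only [map_mul, map_intCast]) (fun j => Θ (x j)) (fun j => hΘ _ (hxΛ j))
    (fun ρ i => Θ (X ρ i.succ)) (fun ρ => Θ (X ρ 0)) (fun ρ j => Θ (Y ρ j)) (by
      intro i j
      have h1 := hXY i.succ j
      simp only [Matrix.of_apply, Fin.cons_succ] at h1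
      rw [h1, map_sum]
      exact Finset.sum_congr rfl fun ρ _ => map_mul _ _ _) (by
      intro j
      have h1 := hXY 0 j
      simp only [Matrix.of_apply, Fin.cons_zero] at h1
      rw [h1, map_sum]
      exact Finset.sum_congr rfl fun ρ _ => map_mul _ _ _)
  refine ⟨fun i => (a i : ℚ) / c, fun j => ?_⟩
  have hc' : (c : E) ≠ 0 := Int.cast_ne_zero.2 hc
  have h1 : (c : E) * x j = ∑ i, (a i : E) * M i j := by
    apply Θ.injective
    rw [map_mul, map_intCast, h j, map_sum]
    exact Finset.sum_congr rfl fun i _ => by rw [map_mul, map_intCast]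
  rw [← mul_right_inj' hc', h1, Finset.mul_sum]
  refine Finset.sum_congr rfl fun i _ => ?_
  push_cast
  field_simp

omit [CharZero E] in
/-- the rows of a matrix without rational zero are independent -/
theorem rows_indep {m n : ℕ} (hn : 1 ≤ n) {M : Matrix (Fin m) (Fin n) E} (hz : NoZ M)
    (w : Fin m → ℚ) (h : ∀ j, ∑ i, (w i : E) * M i j = 0) : w = 0 := by
  by_contra hw
  refine hz w (fun _ => 1) hw (fun h0 => one_ne_zero (congrFun h0 ⟨0, hn⟩)) ?_
  unfold bil
  rw [Finset.sum_comm]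
  refine Finset.sum_eq_zero fun j _ => ?_
  rw [← h j]
  exact Finset.sum_congr rfl fun i _ => by rw [Rat.cast_one, mul_one]

/-- saturation for several vectors at once -/
theorem saturated_mat {Λ : Submodule ℚ E} (hE : Emb Λ) {m n r c : ℕ} (hr : 1 ≤ r)
    (hmn : r * (m + n) = m * n) (M : Matrix (Fin m) (Fin n) E) (hM : ∀ i j, M i j ∈ Λ)
    (hrk : M.rank ≤ r) (hz : NoZ M) (N : Matrix (Fin c) (Fin n) E) (hN : ∀ i j, N i j ∈ Λ)
    (hker : ∀ k : Fin n → E, M.mulVec k = 0 → N.mulVec k = 0) :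
    ∃ A : Matrix (Fin c) (Fin m) ℚ, N = A.map (fun q => (q : E)) * M := by
  have h : ∀ i, ∃ w : Fin m → ℚ, ∀ j, N i j = ∑ l, (w l : E) * M l j := fun i =>
    saturated hE hr hmn M hM hrk hz (N i) (hN i) fun k hk => congrFun (hker k hk) i
  choose A hA using h
  refine ⟨Matrix.of A, ?_⟩
  ext i j
  rw [hA, Matrix.mul_apply]
  rfl

/-- two extremal matrices with the same kernel -/
theorem rigid_mat {Λ : Submodule ℚ E} (hE : Emb Λ) {m n r : ℕ} (hr : 1 ≤ r)
    (hmn : r * (m + n) = m * n) (M N : Matrix (Fin m) (Fin n) E) (hM : ∀ i j, M i j ∈ Λ)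
    (hN : ∀ i j, N i j ∈ Λ) (hrk : M.rank ≤ r) (hrk' : N.rank ≤ r) (hz : NoZ M) (hz' : NoZ N)
    (hker : ∀ k : Fin n → E, M.mulVec k = 0 ↔ N.mulVec k = 0) :
    ∃ A : Matrix (Fin m) (Fin m) ℚ, A.det ≠ 0 ∧ N = A.map (fun q => (q : E)) * M := by
  classical
  obtain ⟨A, hA⟩ := saturated_mat hE hr hmn M hM hrk hz N hN fun k hk => (hker k).1 hk
  refine ⟨A, ?_, hA⟩
  intro h0
  obtain ⟨w, hw, hwA⟩ := Matrix.exists_vecMul_eq_zero_iff.2 h0
  have hn : 1 ≤ n := by
    by_contra h
    obtain rfl : n = 0 := by omega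
    rw [mul_zero] at hmn
    rcases Nat.mul_eq_zero.1 hmn with h2 | h2
    · omega
    · obtain rfl : m = 0 := by omega
      exact hw (Subsingleton.elim _ _)
  apply hw
  refine rows_indep hn hz' w fun j => ?_
  have h1 : ∀ l, ∑ i, (w i : E) * ((A i l : ℚ) : E) = 0 := by
    intro l
    have h2 := congrFun hwA l
    simp only [Matrix.vecMul, dotProduct, Pi.zero_apply] at h2
    have h3 : ((∑ i, w i * A i l : ℚ) : E) = 0 := by rw [h2, Rat.cast_zero]
    push_cast at h3
    exact h3
  have h2 : ∀ i, N i j = ∑ l, ((A i l : ℚ) : E) * M l j := fun i => by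
    rw [hA, Matrix.mul_apply]
    rfl
  simp only [h2, Finset.mul_sum]
  rw [Finset.sum_comm]
  refine Finset.sum_eq_zero fun l _ => ?_
  have h3 : ∑ i, (w i : E) * (((A i l : ℚ) : E) * M l j) =
      (∑ i, (w i : E) * ((A i l : ℚ) : E)) * M l j := by
    rw [Finset.sum_mul]
    exact Finset.sum_congr rfl fun i _ => by ring
  rw [h3, h1, zero_mul]

end Pool.Agent.U979.HR
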