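import Pool.Agent.Y787.AS.WM

set_option autoImplicit false

/-!
# Matrices of logarithms of rank half their size (helper979): the row space is saturated

Let `𝓛` be a rational space of complex numbers for which the linear subgroup theorem holds, and let `M` be an
`n × n` matrix over `𝓛`, `n = 2 r`, with rows in a complex space of dimension `r`, such that `w M v ≠ 0` for all
nonzero rational vectors `w`, `v`.  Then every vector over `𝓛` in this complex space is a rational combination
of the rows of `M`.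
-/

namespace Pool.Agent.U979.HR
open Module Finset
open Pool.Agent.W254.PA (ObsProp)
open Pool.Agent.Y787.AS

/-- the value of the bilinear form of the matrix `u` at integer vectors -/
noncomputable def val {b l : ℕ} (u : Fin b → Fin l → ℂ) (m : Fin b → ℤ) (s : Fin l → ℤ) : ℂ :=
  ∑ j, ∑ q, (m j : ℂ) * (s q : ℂ) * u j q

/-- the form as a function of the left vector -/
noncomputable def valL {b l : ℕ} (u : Fin b → Fin l → ℂ) (s : Fin l → ℤ) :
    (Fin b → ℤ) →ₗ[ℤ] ℂ where
  toFun m := val u m s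
  map_add' x y := by
    simp only [val, ← Finset.sum_add_distrib, Pi.add_apply]
    refine Finset.sum_congr rfl fun j _ => Finset.sum_congr rfl fun q _ => ?_
    push_cast
    ring
  map_smul' n x := by
    simp only [val, Finset.smul_sum, Pi.smul_apply, smul_eq_mul, zsmul_eq_mul, eq_intCast,
      Int.cast_id]
    refine Finset.sum_congr rfl fun j _ => Finset.sum_congr rfl fun q _ => ?_
    push_cast
    ring

/-- the form as a function of the right vector -/
noncomputable def valR {b l : ℕ} (u : Fin b → Fin l → ℂ) (m : Fin b → ℤ) :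
    (Fin l → ℤ) →ₗ[ℤ] ℂ where
  toFun s := val u m s
  map_add' x y := by
    simp only [val, ← Finset.sum_add_distrib, Pi.add_apply]
    refine Finset.sum_congr rfl fun j _ => Finset.sum_congr rfl fun q _ => ?_
    push_cast
    ring
  map_smul' n x := by
    simp only [val, Finset.smul_sum, Pi.smul_apply, smul_eq_mul, zsmul_eq_mul, eq_intCast,
      Int.cast_id]
    refine Finset.sum_congr rfl fun j _ => Finset.sum_congr rfl fun q _ => ?_
    push_cast
    ring

theorem ker_rank {c : ℕ} {A : Type} [AddCommGroup A] (H : AddSubgroup (Fin c → ℤ))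
    (F : (Fin c → ℤ) →ₗ[ℤ] A) (z : A) (hz : ∀ x ∈ H, ∃ n : ℤ, F x = n • z) :
    ∃ H0 : AddSubgroup (Fin c → ℤ), H0 ≤ H ∧ (∀ x ∈ H0, F x = 0) ∧
      finrank ℤ H ≤ finrank ℤ H0 + 1 := by
  classical
  have hfin : Module.Finite ℤ H :=
    Module.Finite.of_injective H.subtype.toIntLinearMap Subtype.val_injective
  let f : H →ₗ[ℤ] A := F ∘ₗ H.subtype.toIntLinearMap
  refine ⟨(LinearMap.ker f).toAddSubgroup.map H.subtype, ?_, ?_, ?_⟩
  · rintro _ ⟨x, -, rfl⟩
    exact x.2
  · rintro _ ⟨x, hx, rfl⟩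
    exact hx
  · have h1 : finrank ℤ (LinearMap.range f) + finrank ℤ (LinearMap.ker f) = finrank ℤ H := by
      rw [← (f.quotKerEquivRange).finrank_eq]
      exact Submodule.finrank_quotient_add_finrank (LinearMap.ker f)
    have h2 : finrank ℤ (LinearMap.range f) ≤ 1 := by
      have hle : LinearMap.range f ≤ Submodule.span ℤ {z} := by
        rintro _ ⟨x, rfl⟩
        obtain ⟨n, hn⟩ := hz x x.2
        exact Submodule.mem_span_singleton.2 ⟨n, hn.symm⟩
      refine (LinearMap.finrank_le_finrank_of_injective (f := Submodule.inclusion hle)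
        (Submodule.inclusion_injective hle)).trans ?_
      simpa using finrank_span_le_card (R := ℤ) ({z} : Set A)
    let H0 := (LinearMap.ker f).toAddSubgroup.map H.subtype
    have hfin0 : Module.Finite ℤ H0 :=
      Module.Finite.of_injective H0.subtype.toIntLinearMap Subtype.val_injective
    have h3 : finrank ℤ (LinearMap.ker f) ≤ finrank ℤ H0 := by
      let g : LinearMap.ker f →ₗ[ℤ] H0 :=
        { toFun := fun x => ⟨x.1.1, ⟨x.1, x.2, rfl⟩⟩
          map_add' := fun x y => rfl
          map_smul' := fun n x => rfl }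
      exact LinearMap.finrank_le_finrank_of_injective (f := g) fun x y hxy =>
        Subtype.ext (Subtype.ext (congrArg (fun t : H0 => (t : Fin c → ℤ)) hxy))
    change finrank ℤ H ≤ finrank ℤ H0 + 1
    omega

theorem two_kernel' {c : ℕ} {A : Type} [AddCommGroup A] (H : AddSubgroup (Fin c → ℤ))
    (hH : 2 ≤ finrank ℤ H) (F : (Fin c → ℤ) →ₗ[ℤ] A) (z : A)
    (hz : ∀ x ∈ H, ∃ n : ℤ, F x = n • z) : ∃ x ∈ H, x ≠ 0 ∧ F x = 0 := by
  obtain ⟨H0, h1, h2, h3⟩ := ker_rank H F z hz
  obtain ⟨x, hx, hx0⟩ := exists_ne_of_finrank H0 (by omega)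
  exact ⟨x, h1 hx, hx0, h2 x hx⟩

/-- the linear subgroup theorem for a matrix of small rank, in terms of a block of multiples of `2 π i` -/
theorem block {𝓛 : Submodule ℚ ℂ} (hO : ObsProp 𝓛) {b l r : ℕ} (_hb : 1 ≤ b) (hl : 1 ≤ l)
    (hr : r * (b + l) < b * l) (u : Fin b → Fin l → ℂ) (hu : ∀ j q, u j q ∈ 𝓛)
    (x : Fin r → Fin b → ℂ) (y : Fin r → Fin l → ℂ)
    (huv : ∀ j q, u j q = ∑ ρ, x ρ j * y ρ q) :
    ∃ (R : AddSubgroup (Fin b → ℤ)) (G : AddSubgroup (Fin l → ℤ)),
      (l - finrank ℤ G) * b < finrank ℤ R * l ∧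
      ∀ s ∈ G, ∀ m ∈ R, ∃ n : ℤ, val u m s = n * (2 * Real.pi * Complex.I) := by
  classical
  obtain ⟨Af', Rm', W0, G0, -, g2, -, g4, g5⟩ := hO 0 b l r ∅ (fun i => i.elim0)
    (fun i => i.elim0) u x y (fun i => i.elim0) (fun i => i.elim0) hu (fun j q => by
      rw [huv]; simp) (l * (r + 1) + b * (r + 1)) (l * (r + 1)) (b * (r + 1)) rfl (by
      rw [Finset.card_empty, zero_mul, zero_add, add_zero]
      have h1 : r * (b + l) + 1 ≤ b * l := hr
      have h2 : (r * (b + l) + 1) * (r + 1) ≤ b * l * (r + 1) := Nat.mul_le_mul_right _ h1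
      nlinarith)
  have hA : Af' = ⊥ := Subsingleton.elim _ _
  have hR : Rm' ≠ ⊥ := fun h => g2 ⟨hA, h⟩
  have hA0 : finrank ℂ Af' = 0 := by
    have : Subsingleton Af' := ⟨fun x y => Subtype.ext (Subsingleton.elim _ _)⟩
    exact finrank_zero_of_subsingleton
  have ha1 : 1 ≤ finrank ℤ Rm' := by
    obtain ⟨z, hz, hz0⟩ := (AddSubgroup.bot_or_exists_ne_zero Rm').resolve_left hR
    have : Nontrivial Rm' := ⟨⟨z, hz⟩, 0, fun h => hz0 (congrArg Subtype.val h)⟩
    have : Module.Finite ℤ Rm' :=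
      Module.Finite.of_injective Rm'.subtype.toIntLinearMap Subtype.val_injective
    exact Module.finrank_pos
  rw [hA0, zero_mul, Nat.zero_sub, zero_mul, zero_add, zero_add] at g5
  refine ⟨Rm', G0, ?_, fun s hs m hm => (g4 s hs).2 m hm⟩
  rcases g5 with h | ⟨h, -, h'⟩
  · have h1 : (l - finrank ℤ G0) * b * (r + 1) < finrank ℤ Rm' * l * (r + 1) := by
      calc _ = (l - finrank ℤ G0) * (b * (r + 1)) := by ring
        _ < finrank ℤ Rm' * (l * (r + 1)) := h
        _ = _ := by ring
    exact Nat.lt_of_mul_lt_mul_right h1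
  · rw [h', zero_mul] at h
    have h1 : 0 < finrank ℤ Rm' * (l * (r + 1)) := by positivity
    omega

/-- `M` has no zero at nonzero integer vectors -/
def NZ {b l : ℕ} (M : Fin b → Fin l → ℂ) : Prop :=
  ∀ (m : Fin b → ℤ) (s : Fin l → ℤ), m ≠ 0 → s ≠ 0 → val M m s ≠ 0

theorem val_cons {b l : ℕ} (x : Fin l → ℂ) (M : Fin b → Fin l → ℂ) (m : Fin (b + 1) → ℤ)
    (s : Fin l → ℤ) : val (Fin.cons x M) m s =
      (m 0 : ℂ) * ∑ q, (s q : ℂ) * x q + val M (Fin.tail m) s := by
  unfold val
  rw [Fin.sum_univ_succ, Finset.mul_sum]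
  simp only [Fin.cons_zero, Fin.cons_succ, Fin.tail]
  congr 1
  exact Finset.sum_congr rfl fun q _ => by ring

theorem tail_ne {b : ℕ} {m : Fin (b + 1) → ℤ} (h : m ≠ 0) (h0 : m 0 = 0) : Fin.tail m ≠ 0 := by
  intro h1
  apply h
  funext i
  refine Fin.cases h0 (fun j => ?_) i
  exact congrFun h1 j

/-- a matrix which is a product through `r` dimensions, one of which is superfluous, on columns
`s_1, …, s_c` -/
theorem drop_one {r b c : ℕ} (hr : 1 ≤ r) (X : Fin r → Fin b → ℂ) (Y : Fin r → Fin c → ℂ)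
    (η : Fin r → ℂ) (hη : η ≠ 0) (h : ∀ k, ∑ ρ, η ρ * Y ρ k = 0) :
    ∃ (x : Fin (r - 1) → Fin b → ℂ) (y : Fin (r - 1) → Fin c → ℂ),
      ∀ i k, ∑ ρ, X ρ i * Y ρ k = ∑ ρ, x ρ i * y ρ k := by
  classical
  let Z : Matrix (Fin c) (Fin r) ℂ := Matrix.of fun k ρ => Y ρ k
  have h1 := LinearMap.finrank_range_add_finrank_ker Z.mulVecLin
  rw [finrank_fintype_fun_eq_card, Fintype.card_fin] at h1
  have h2 : 1 ≤ finrank ℂ (LinearMap.ker Z.mulVecLin) := by
    have : Nontrivial (LinearMap.ker Z.mulVecLin) := by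
      refine ⟨⟨⟨η, ?_⟩, 0, fun h0 => hη (congrArg Subtype.val h0)⟩⟩
      rw [LinearMap.mem_ker, Matrix.mulVecLin_apply]
      funext k
      rw [Matrix.mulVec, dotProduct, Pi.zero_apply, ← h k]
      exact Finset.sum_congr rfl fun ρ _ => mul_comm _ _
    exact Module.finrank_pos
  have h3 : Z.rank ≤ r - 1 := by
    unfold Matrix.rank
    omega
  obtain ⟨x, y, hxy⟩ := rank_fac Z h3
  refine ⟨fun σ i => ∑ ρ, y σ ρ * X ρ i, x, fun i k => ?_⟩
  have h4 : ∀ ρ, Y ρ k = ∑ σ, x σ k * y σ ρ := fun ρ => hxy k ρ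
  simp only [h4, Finset.mul_sum, Finset.sum_mul]
  rw [Finset.sum_comm]
  exact Finset.sum_congr rfl fun σ _ => Finset.sum_congr rfl fun ρ _ => by ring

/-- **Saturation.** Let `M` be a `b × l` matrix over `𝓛` with rows in the span of `Y_1, …, Y_r`, where
`r (b + l) = b l`, and without zeros at nonzero integer vectors.  Then every vector `x` over `𝓛` in this span is a
rational combination of the rows of `M`. -/
theorem sat {𝓛 : Submodule ℚ ℂ} (hO : ObsProp 𝓛) {b l r : ℕ} (hr : 1 ≤ r)
    (hrbl : r * (b + l) = b * l)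
    (M : Fin b → Fin l → ℂ) (hM : ∀ i j, M i j ∈ 𝓛) (hz : NZ M)
    (x : Fin l → ℂ) (hx : ∀ j, x j ∈ 𝓛) (X : Fin r → Fin b → ℂ) (X' : Fin r → ℂ)
    (Y : Fin r → Fin l → ℂ) (hMf : ∀ i j, M i j = ∑ ρ, X ρ i * Y ρ j)
    (hxf : ∀ j, x j = ∑ ρ, X' ρ * Y ρ j) :
    ∃ (c : ℤ) (m : Fin b → ℤ), c ≠ 0 ∧ ∀ j, (c : ℂ) * x j = ∑ i, (m i : ℂ) * M i j := by
  classical
  rcases Nat.eq_zero_or_pos l with hl0 | hl0
  · subst hl0
    exact ⟨1, fun _ => 0, one_ne_zero, fun j => j.elim0⟩
  have hb2 : 2 ≤ b := by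
    by_contra h
    have h1 : b = 0 ∨ b = 1 := by omega
    rcases h1 with rfl | rfl
    · rw [zero_mul] at hrbl
      rcases Nat.mul_eq_zero.1 hrbl with h2 | h2 <;> omega
    · nlinarith
  have hl2 : 2 ≤ l := by
    by_contra h
    have h1 : l = 0 ∨ l = 1 := by omega
    rcases h1 with rfl | rfl
    · rw [mul_zero] at hrbl
      rcases Nat.mul_eq_zero.1 hrbl with h2 | h2 <;> omega
    · nlinarith
  by_contra hcon
  push Not at hcon
  have hcon' : ∀ m : Fin (b + 1) → ℤ, m 0 ≠ 0 → ¬ ∀ q, ∑ j, (m j : ℂ) *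
      (Fin.cons x M : Fin (b + 1) → Fin l → ℂ) j q = 0 := by
    intro m h0 h
    obtain ⟨j, hj⟩ := hcon (m 0) (fun i => - m i.succ) h0
    apply hj
    have h1 := h j
    rw [Fin.sum_univ_succ] at h1
    simp only [Fin.cons_zero, Fin.cons_succ] at h1
    rw [eq_neg_of_add_eq_zero_left h1, ← Finset.sum_neg_distrib]
    exact Finset.sum_congr rfl fun i _ => by push_cast; ring
  set u : Fin (b + 1) → Fin l → ℂ := Fin.cons x M with hu
  set U : Fin r → Fin (b + 1) → ℂ := fun ρ => Fin.cons (X' ρ) (X ρ) with hU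
  have huf : ∀ j q, u j q = ∑ ρ, U ρ j * Y ρ q := by
    intro j q
    refine Fin.cases ?_ (fun i => ?_) j
    · simp only [hu, hU, Fin.cons_zero]
      exact hxf q
    · simp only [hu, hU, Fin.cons_succ]
      exact hMf i q
  have humem : ∀ j q, u j q ∈ 𝓛 := by
    intro j q
    refine Fin.cases ?_ (fun i => ?_) j
    · simp only [hu, Fin.cons_zero]
      exact hx q
    · simp only [hu, Fin.cons_succ]
      exact hM i q
  obtain ⟨R, G, hmain, hval⟩ := block hO (b := b + 1) (l := l) (r := r) (by omega)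
    (by omega) (by nlinarith) u humem U Y huf
  have ha2 := finrank_addSubgroup_le R
  have hg2 := finrank_addSubgroup_le G
  obtain ⟨a, ha⟩ : ∃ a, finrank ℤ R = a := ⟨_, rfl⟩
  obtain ⟨g, hg⟩ : ∃ g, finrank ℤ G = g := ⟨_, rfl⟩
  rw [ha, hg] at hmain
  rw [ha] at ha2
  rw [hg] at hg2
  obtain ⟨d, hd⟩ : ∃ d, l = g + d := ⟨l - g, by omega⟩
  have hmain' : d * (b + 1) < a * l := by
    have : l - g = d := by omega
    rwa [this] at hmain
  -- elements of `R` with first coordinate zero
  have hzero : ∀ m ∈ R, m ≠ 0 → m 0 = 0 → ∀ s : Fin l → ℤ, s ≠ 0 → val u m s ≠ 0 := by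
    intro m _ hm h0 s hs
    rw [hu, val_cons, h0, Int.cast_zero, zero_mul, zero_add]
    exact hz _ _ (tail_ne hm h0) hs
  have hzG : ∀ m ∈ R, ∀ s ∈ G, ∃ n : ℤ, valR u m s = n • (2 * Real.pi * Complex.I) := by
    intro m hm s hs
    obtain ⟨n, hn⟩ := hval s hs m hm
    exact ⟨n, by rw [zsmul_eq_mul]; exact hn⟩
  have hzR : ∀ s ∈ G, ∀ m ∈ R, ∃ n : ℤ, valL u s m = n • (2 * Real.pi * Complex.I) := by
    intro s hs m hm
    obtain ⟨n, hn⟩ := hval s hs m hm
    exact ⟨n, by rw [zsmul_eq_mul]; exact hn⟩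
  -- a nonzero element of `R` with first coordinate zero and two dimensions in `G` are impossible
  have key : ∀ m ∈ R, m ≠ 0 → m 0 = 0 → g ≤ 1 := by
    intro m hm hm0 h0
    by_contra h2
    obtain ⟨s, -, hs0, hs1⟩ := two_kernel' G (by omega) (valR u m) _ (hzG m hm)
    exact hzero m hm hm0 h0 s hs0 hs1
  obtain ⟨R0, hR1, hR2, hR3⟩ := ker_rank R (LinearMap.proj (0 : Fin (b + 1))) (1 : ℤ)
    (fun x _ => ⟨x 0, by simp⟩)
  rw [ha] at hR3
  rcases Nat.lt_or_ge a 2 with h2 | h2
  · -- `a = 1`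
    have ha1 : a = 1 := by
      rcases Nat.eq_zero_or_pos a with h | h
      · rw [h, zero_mul] at hmain'
        omega
      · omega
    rw [ha1, one_mul] at hmain'
    have hg3 : 2 ≤ g := by
      by_contra h
      have h3 : l ≤ d + 1 := by omega
      have h4 : d * (b + 1) < d + 1 := by omega
      have h5 : d * 3 ≤ d * (b + 1) := Nat.mul_le_mul_left _ (by omega)
      omega
    obtain ⟨m, hm, hm0⟩ := exists_ne_of_finrank R (by omega)
    have hm1 : m 0 ≠ 0 := fun h0 => by
      have := key m hm hm0 h0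
      omega
    obtain ⟨G1, hG1, hG2, hG3⟩ := ker_rank G (valR u m) _ (hzG m hm)
    have hG4 : g - 1 ≤ finrank ℤ G1 := by omega
    obtain ⟨v, hv⟩ := exists_linearIndependent_of_le_finrank (R := ℤ) (M := G1) hG4
    -- the vector `η`
    set η : Fin r → ℂ := fun ρ => ∑ j, (m j : ℂ) * U ρ j with hηdef
    have hηY : ∀ q, ∑ j, (m j : ℂ) * u j q = ∑ ρ, η ρ * Y ρ q := by
      intro q
      simp only [huf, hηdef, Finset.mul_sum, Finset.sum_mul]
      rw [Finset.sum_comm]
      exact Finset.sum_congr rfl fun ρ _ => Finset.sum_congr rfl fun j _ => by ring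
    have hη0 : η ≠ 0 := by
      intro h0
      apply hcon' m hm1
      intro q
      rw [hηY, h0]
      simp
    obtain ⟨x', y', hxy'⟩ := drop_one hr X
      (fun ρ (k : Fin (g - 1)) => ∑ q, ((v k : Fin l → ℤ) q : ℂ) * Y ρ q) η hη0 (by
        intro k
        have h1 := hG2 _ (v k).2
        have h3 : valR u m (v k : Fin l → ℤ) = ∑ q, ((v k : Fin l → ℤ) q : ℂ) *
            ∑ j, (m j : ℂ) * u j q := by
          change val u m _ = _
          unfold val
          rw [Finset.sum_comm]
          refine Finset.sum_congr rfl fun q _ => ?_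
          rw [Finset.mul_sum]
          exact Finset.sum_congr rfl fun j _ => by ring
        rw [h3] at h1
        rw [← h1]
        simp only [hηY, Finset.mul_sum]
        rw [Finset.sum_comm]
        exact Finset.sum_congr rfl fun q _ => Finset.sum_congr rfl fun ρ _ => by ring)
    obtain ⟨t, ht⟩ : ∃ t, r = t + 1 := ⟨r - 1, by omega⟩
    obtain ⟨k, hk⟩ : ∃ k, g = k + 1 := ⟨g - 1, by omega⟩
    obtain ⟨m', s', hm', hs', h'⟩ := wm_int hO (b := b) (l := g - 1) (r := r - 1) (by omega)
      (by omega) (by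
        rw [ht, hk, Nat.add_sub_cancel, Nat.add_sub_cancel]
        rw [ht, hd, hk] at hrbl
        rw [hd, hk] at hmain'
        nlinarith) (fun i k => ∑ q, ((v k : Fin l → ℤ) q : ℂ) * M i q) (by
        intro i k
        refine Submodule.sum_mem _ fun q _ => ?_
        have h1 : (((v k : Fin l → ℤ) q : ℤ) : ℂ) * M i q =
            (((v k : Fin l → ℤ) q : ℤ) : ℚ) • M i q := by
          rw [Rat.smul_def]
          push_cast
          rfl
        rw [h1]
        exact Submodule.smul_mem _ _ (hM i q)) x' y' (by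
        intro i k
        rw [← hxy' i k]
        simp only [hMf, Finset.mul_sum]
        rw [Finset.sum_comm]
        exact Finset.sum_congr rfl fun ρ _ => Finset.sum_congr rfl fun q _ => by ring)
    have hne : (fun q => ∑ k, s' k * (v k : Fin l → ℤ) q) ≠ 0 := by
      intro h0
      apply hs'
      have h1 := Fintype.linearIndependent_iff.1 hv s' (by
        apply Subtype.ext
        funext q
        have := congrFun h0 q
        simp only [AddSubgroup.val_finsetSum, Finset.sum_apply, Pi.zero_apply,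
          ZeroMemClass.coe_zero] at this ⊢
        rw [← this]
        refine Finset.sum_congr rfl fun k _ => ?_
        change (s' k • (v k : Fin l → ℤ)) q = _
        rw [Pi.smul_apply, smul_eq_mul])
      funext k
      exact h1 k
    refine hz m' _ hm' hne ?_
    rw [← h']
    unfold val
    refine Finset.sum_congr rfl fun i _ => ?_
    push_cast
    simp only [Finset.mul_sum, Finset.sum_mul]
    rw [Finset.sum_comm]
    exact Finset.sum_congr rfl fun k _ => Finset.sum_congr rfl fun q _ => by ring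
  · have hg1 : 1 ≤ g := by
      by_contra h
      have hg0 : g = 0 := by omega
      have : d = l := by omega
      rw [this] at hmain'
      have : a * l ≤ (b + 1) * l := Nat.mul_le_mul_right _ ha2
      nlinarith
    rcases Nat.lt_or_ge a 3 with h3 | h3
    · -- `a = 2`
      have ha2' : a = 2 := by omega
      obtain ⟨m, hm, hm0⟩ := exists_ne_of_finrank R0 (by omega)
      have hgle := key m (hR1 hm) hm0 (hR2 m hm)
      have hg' : g = 1 := by omega
      have hbl : b = 2 ∧ l = 2 := by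
        rw [ha2', hd, hg'] at hmain'
        have hd1 : 1 ≤ d := by omega
        have h4 : d * (b + 1) < 2 + 2 * d := by omega
        have h5 : b = 2 := by
          by_contra h6
          have : d * 4 ≤ d * (b + 1) := Nat.mul_le_mul_left _ (by omega)
          have hd2 : d = 0 := by omega
          omega
        rw [h5] at h4
        omega
      obtain ⟨rfl, rfl⟩ := hbl
      have hr1 : r = 1 := by omega
      subst hr1
      obtain ⟨s, hs, hs0⟩ := exists_ne_of_finrank G (by omega)
      obtain ⟨m', hm', hm0', hv'⟩ := two_kernel' R (by omega) (valL u s) _ (hzR s hs)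
      have hm1 : m' 0 ≠ 0 := fun h0 => hzero m' hm' hm0' h0 s hs0 hv'
      have h4 : ∀ q, ∑ j, (m' j : ℂ) * u j q = (∑ j, (m' j : ℂ) * U 0 j) * Y 0 q := by
        intro q
        simp only [huf, Fin.sum_univ_one, Finset.sum_mul, Fin.isValue]
        exact Finset.sum_congr rfl fun j _ => by ring
      have h5 : valL u s m' = (∑ j, (m' j : ℂ) * U 0 j) * ∑ q, (s q : ℂ) * Y 0 q := by
        change val u m' s = _
        unfold val
        rw [Finset.sum_comm, Finset.mul_sum]
        refine Finset.sum_congr rfl fun q _ => ?_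
        have : ∑ j, (m' j : ℂ) * (s q : ℂ) * u j q = (s q : ℂ) * ∑ j, (m' j : ℂ) * u j q := by
          rw [Finset.mul_sum]
          exact Finset.sum_congr rfl fun j _ => by ring
        rw [this, h4]
        ring
      rw [h5] at hv'
      rcases mul_eq_zero.1 hv' with h6 | h6
      · apply hcon' m' hm1
        intro q
        rw [h4, h6, zero_mul]
      · refine hz (fun _ => 1) s (fun h => one_ne_zero (congrFun h 0)) hs0 ?_
        unfold val
        have h7 : ∀ i, ∑ q, ((fun _ => 1 : Fin 2 → ℤ) i : ℂ) * (s q : ℂ) * M i q = 0 := by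
          intro i
          have : ∑ q, ((fun _ => 1 : Fin 2 → ℤ) i : ℂ) * (s q : ℂ) * M i q =
              X 0 i * ∑ q, (s q : ℂ) * Y 0 q := by
            rw [Finset.mul_sum]
            refine Finset.sum_congr rfl fun q _ => ?_
            rw [hMf, Fintype.sum_unique]
            push_cast
            change (1 : ℂ) * (s q : ℂ) * (X 0 i * Y 0 q) = _
            ring
          rw [this, h6, mul_zero]
        exact Finset.sum_eq_zero fun i _ => h7 i
    · -- `a ≥ 3`
      obtain ⟨s, hs, hs0⟩ := exists_ne_of_finrank G (by omega)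
      obtain ⟨m, hm, hm0, hv⟩ := two_kernel' R0 (by omega) (valL u s) _
        (fun x hx => hzR s hs x (hR1 hx))
      exact hzero m (hR1 hm) hm0 (hR2 m hm) s hs0 hv

end Pool.Agent.U979.HR
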