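import Pool.Agent.U979.HR.Abs

set_option autoImplicit false

/-!
# Matrices of logarithms with a real kernel (helper979)
-/

namespace Pool.Agent.U979.HR
open Module Finset ComplexConjugate
open Pool.Agent.Y787.AS
open Pool.Agent.H301R2.SSE (Lg)

theorem emb_complex : Emb Lg := ⟨RingHom.id ℂ, Lg, obs_complex, fun _ h => h⟩

theorem conj_log {z : ℂ} (h : z ∈ Lg) : conj z ∈ Lg := by
  change IsAlgebraic ℚ (Complex.exp (conj z))
  rw [Complex.exp_conj]
  have h1 : IsAlgebraic ℚ (Complex.exp z) := h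
  exact h1.algHom (RingHom.toRatAlgHom (starRingEnd ℂ))

theorem bil_conj {m n : ℕ} (M : Matrix (Fin m) (Fin n) ℂ) (w : Fin m → ℚ) (v : Fin n → ℚ) :
    bil (M.map conj) w v = conj (bil M w v) := by
  unfold bil
  rw [map_sum]
  refine Finset.sum_congr rfl fun i _ => ?_
  rw [map_sum]
  refine Finset.sum_congr rfl fun j _ => ?_
  rw [map_mul, map_mul, Matrix.map_apply, map_ratCast, map_ratCast]

theorem bil_add {m n : ℕ} (M : Matrix (Fin m) (Fin n) ℂ) (w w' : Fin m → ℚ) (v : Fin n → ℚ) :
    bil M (w + w') v = bil M w v + bil M w' v := by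
  unfold bil
  rw [← Finset.sum_add_distrib]
  refine Finset.sum_congr rfl fun i _ => ?_
  rw [← Finset.sum_add_distrib]
  refine Finset.sum_congr rfl fun j _ => ?_
  rw [Pi.add_apply, Rat.cast_add]
  ring

theorem bil_sub {m n : ℕ} (M : Matrix (Fin m) (Fin n) ℂ) (w w' : Fin m → ℚ) (v : Fin n → ℚ) :
    bil M (w - w') v = bil M w v - bil M w' v := by
  unfold bil
  rw [← Finset.sum_sub_distrib]
  refine Finset.sum_congr rfl fun i _ => ?_
  rw [← Finset.sum_sub_distrib]
  refine Finset.sum_congr rfl fun j _ => ?_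
  rw [Pi.sub_apply, Rat.cast_sub]
  ring

/-- the kernel is stable under complex conjugation -/
def RK {m n : ℕ} (M : Matrix (Fin m) (Fin n) ℂ) : Prop :=
  ∀ k : Fin n → ℂ, M.mulVec k = 0 → M.mulVec (fun j => conj (k j)) = 0

theorem rk_conj {m n : ℕ} {M : Matrix (Fin m) (Fin n) ℂ} (h : RK M) {k : Fin n → ℂ}
    (hk : M.mulVec k = 0) : (M.map conj).mulVec k = 0 := by
  have h1 := h k hk
  funext i
  have h2 := congrArg (starRingEnd ℂ) (congrFun h1 i)
  simp only [Matrix.mulVec, dotProduct, Pi.zero_apply, map_zero, map_sum, map_mul,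
    Complex.conj_conj, Matrix.map_apply] at h2 ⊢
  exact h2

theorem rank_le_of_ker {a b n : ℕ} (M : Matrix (Fin a) (Fin n) ℂ) (M' : Matrix (Fin b) (Fin n) ℂ)
    (h : ∀ k : Fin n → ℂ, M.mulVec k = 0 → M'.mulVec k = 0) : M'.rank ≤ M.rank := by
  have h1 := LinearMap.finrank_range_add_finrank_ker M'.mulVecLin
  have h2 := LinearMap.finrank_range_add_finrank_ker M.mulVecLin
  have h3 : finrank ℂ (LinearMap.ker M.mulVecLin) ≤ finrank ℂ (LinearMap.ker M'.mulVecLin) :=
    Submodule.finrank_mono fun k hk => by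
      rw [LinearMap.mem_ker, Matrix.mulVecLin_apply] at hk ⊢
      exact h k hk
  unfold Matrix.rank
  omega

section extremal

variable {m n r : ℕ} (hr : 1 ≤ r) (hmn : r * (m + n) = m * n) {M : Matrix (Fin m) (Fin n) ℂ}
  (hM : ∀ i j, M i j ∈ Lg) (hrk : M.rank ≤ r) (hz : NoZ M)

include hr hmn hM hrk hz

theorem conj_eq (hR : RK M) : ∃ A : Matrix (Fin m) (Fin m) ℚ,
    M.map conj = A.map (fun q => (q : ℂ)) * M :=
  saturated_mat emb_complex hr hmn M hM hrk hz (M.map conj) (fun i j => conj_log (hM i j))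
    fun _ hk => rk_conj hR hk

theorem real_rows (hR : RK M) :
    Submodule.span ℚ {w : Fin m → ℚ | (∀ j, (∑ i, (w i : ℂ) * M i j).im = 0) ∨
      ∀ j, (∑ i, (w i : ℂ) * M i j).re = 0} = ⊤ := by
  obtain ⟨A, hA⟩ := conj_eq hr hmn hM hrk hz hR
  rw [eq_top_iff]
  intro w _
  have hAw : ∀ j, ∑ i, ((Matrix.vecMul w A i : ℚ) : ℂ) * M i j =
      conj (∑ i, (w i : ℂ) * M i j) := by
    intro j
    have h1 : ∀ i, conj (M i j) = ∑ l, ((A i l : ℚ) : ℂ) * M l j := fun i => by
      have h2 := congrFun (congrFun hA i) j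
      rw [Matrix.map_apply, Matrix.mul_apply] at h2
      exact h2
    rw [map_sum]
    simp only [map_mul, map_ratCast, h1, Matrix.vecMul, dotProduct, Rat.cast_sum, Rat.cast_mul,
      Finset.mul_sum, Finset.sum_mul]
    rw [Finset.sum_comm]
    exact Finset.sum_congr rfl fun i _ => Finset.sum_congr rfl fun l _ => by ring
  have hp : w + Matrix.vecMul w A ∈ {w : Fin m → ℚ | (∀ j, (∑ i, (w i : ℂ) * M i j).im = 0) ∨
      ∀ j, (∑ i, (w i : ℂ) * M i j).re = 0} := by
    left
    intro j
    have : ∑ i, (((w + Matrix.vecMul w A) i : ℚ) : ℂ) * M i j =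
        (∑ i, (w i : ℂ) * M i j) + conj (∑ i, (w i : ℂ) * M i j) := by
      rw [← hAw, ← Finset.sum_add_distrib]
      refine Finset.sum_congr rfl fun i _ => ?_
      rw [Pi.add_apply, Rat.cast_add]
      ring
    rw [this, Complex.add_im, Complex.conj_im, add_neg_cancel]
  have hq : w - Matrix.vecMul w A ∈ {w : Fin m → ℚ | (∀ j, (∑ i, (w i : ℂ) * M i j).im = 0) ∨
      ∀ j, (∑ i, (w i : ℂ) * M i j).re = 0} := by
    right
    intro j
    have : ∑ i, (((w - Matrix.vecMul w A) i : ℚ) : ℂ) * M i j =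
        (∑ i, (w i : ℂ) * M i j) - conj (∑ i, (w i : ℂ) * M i j) := by
      rw [← hAw, ← Finset.sum_sub_distrib]
      refine Finset.sum_congr rfl fun i _ => ?_
      rw [Pi.sub_apply, Rat.cast_sub]
      ring
    rw [this, Complex.sub_re, Complex.conj_re, sub_self]
  have h1 : w = (1 / 2 : ℚ) • (w + Matrix.vecMul w A) + (1 / 2 : ℚ) • (w - Matrix.vecMul w A) := by
    funext i
    simp only [Pi.add_apply, Pi.smul_apply, Pi.sub_apply, smul_eq_mul]
    ring
  rw [h1]
  exact Submodule.add_mem _ (Submodule.smul_mem _ _ (Submodule.subset_span hp))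
    (Submodule.smul_mem _ _ (Submodule.subset_span hq))

end extremal

theorem bil_eq_row {m n : ℕ} (M : Matrix (Fin m) (Fin n) ℂ) (w : Fin m → ℚ) (v : Fin n → ℚ) :
    bil M w v = ∑ j, (∑ i, (w i : ℂ) * M i j) * (v j : ℂ) := by
  unfold bil
  rw [Finset.sum_comm]
  exact Finset.sum_congr rfl fun j _ => by rw [Finset.sum_mul]

theorem bil_eq_col {m n : ℕ} (M : Matrix (Fin m) (Fin n) ℂ) (w : Fin m → ℚ) (v : Fin n → ℚ) :
    bil M w v = ∑ i, (w i : ℂ) * ∑ j, M i j * (v j : ℂ) := by
  unfold bil
  exact Finset.sum_congr rfl fun i _ => by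
    rw [Finset.mul_sum]
    exact Finset.sum_congr rfl fun j _ => by ring

theorem bil_transpose {m n : ℕ} (M : Matrix (Fin m) (Fin n) ℂ) (w : Fin m → ℚ)
    (v : Fin n → ℚ) : bil M.transpose v w = bil M w v := by
  unfold bil
  rw [Finset.sum_comm]
  exact Finset.sum_congr rfl fun i _ => Finset.sum_congr rfl fun j _ => by
    rw [Matrix.transpose_apply]
    ring

/-- a rational combination of real numbers is real -/
theorem im_sum {c : ℕ} (f : Fin c → ℂ) (v : Fin c → ℚ) (h : ∀ j, (f j).im = 0) :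
    (∑ j, f j * (v j : ℂ)).im = 0 := by
  rw [Complex.im_sum]
  refine Finset.sum_eq_zero fun j _ => ?_
  rw [← Complex.ofReal_ratCast, Complex.im_mul_ofReal, h, zero_mul]

theorem re_sum {c : ℕ} (f : Fin c → ℂ) (v : Fin c → ℚ) (h : ∀ j, (f j).re = 0) :
    (∑ j, f j * (v j : ℂ)).re = 0 := by
  rw [Complex.re_sum]
  refine Finset.sum_eq_zero fun j _ => ?_
  rw [← Complex.ofReal_ratCast, Complex.re_mul_ofReal, h, zero_mul]

/-- both kernels real: the matrix is real or purely imaginary -/
theorem both {m n r : ℕ} (hr : 1 ≤ r) (hmn : r * (m + n) = m * n) {M : Matrix (Fin m) (Fin n) ℂ}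
    (hM : ∀ i j, M i j ∈ Lg) (hrk : M.rank ≤ r) (hz : NoZ M) (hR : RK M) (hR' : RK M.transpose) :
    (∀ i j, (M i j).im = 0) ∨ ∀ i j, (M i j).re = 0 := by
  classical
  have h1 := real_rows hr hmn hM hrk hz hR
  have h2 := real_rows (M := M.transpose) hr (by rw [add_comm, hmn, mul_comm])
    (fun i j => hM j i) (by rw [Matrix.rank_transpose]; exact hrk) (by
      intro w v hw hv h
      exact hz v w hv hw (by rw [← bil_transpose]; exact h)) hR'
  -- a nonzero `w` with `w M` real and a nonzero `v` with `M v` imaginary do not exist together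
  have key : ∀ (w : Fin m → ℚ) (v : Fin n → ℚ), w ≠ 0 → v ≠ 0 →
      ((∀ j, (∑ i, (w i : ℂ) * M i j).im = 0) → (∀ i, (∑ j, (v j : ℂ) * M i j).re = 0) → False) ∧
      ((∀ j, (∑ i, (w i : ℂ) * M i j).re = 0) →
        (∀ i, (∑ j, (v j : ℂ) * M i j).im = 0) → False) := by
    intro w v hw hv
    have e1 : bil M w v = ∑ j, (∑ i, (w i : ℂ) * M i j) * (v j : ℂ) := bil_eq_row M w v
    have e2 : bil M w v = ∑ i, (∑ j, (v j : ℂ) * M i j) * (w i : ℂ) := by
      rw [← bil_transpose, bil_eq_row]
      rfl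
    constructor
    · intro h3 h4
      refine hz w v hw hv (Complex.ext ?_ ?_)
      · rw [e2]
        exact re_sum _ w h4
      · rw [e1]
        exact im_sum _ v h3
    · intro h3 h4
      refine hz w v hw hv (Complex.ext ?_ ?_)
      · rw [e1]
        exact re_sum _ v h3
      · rw [e2]
        exact im_sum _ w h4
  by_cases hc : ∃ w : Fin m → ℚ, w ≠ 0 ∧ ∀ j, (∑ i, (w i : ℂ) * M i j).im = 0
  · obtain ⟨w, hw, hwr⟩ := hc
    left
    -- all `v` have `M v` real
    have h3 : ∀ v ∈ Submodule.span ℚ {v : Fin n → ℚ |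
        (∀ i, (∑ j, (v j : ℂ) * M.transpose j i).im = 0) ∨
          ∀ i, (∑ j, (v j : ℂ) * M.transpose j i).re = 0},
        ∀ i, (∑ j, (v j : ℂ) * M i j).im = 0 := by
      intro v hv
      refine Submodule.span_induction ?_ ?_ ?_ ?_ hv
      · rintro v (h | h)
        · exact h
        · have hv0 : v = 0 := by
            by_contra hv0
            exact (key w v hw hv0).1 hwr h
          intro i
          rw [hv0]
          simp
      · intro i
        simp
      · intro a b _ _ ha hb i
        have : ∑ j, (((a + b) j : ℚ) : ℂ) * M i j =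
            ∑ j, (a j : ℂ) * M i j + ∑ j, (b j : ℂ) * M i j := by
          rw [← Finset.sum_add_distrib]
          exact Finset.sum_congr rfl fun j _ => by rw [Pi.add_apply, Rat.cast_add]; ring
        rw [this, Complex.add_im, ha, hb, add_zero]
      · intro c a _ ha i
        have : ∑ j, (((c • a) j : ℚ) : ℂ) * M i j = ((c : ℝ) : ℂ) * ∑ j, (a j : ℂ) * M i j := by
          rw [Finset.mul_sum]
          exact Finset.sum_congr rfl fun j _ => by
            rw [Pi.smul_apply, smul_eq_mul, Rat.cast_mul, Complex.ofReal_ratCast]; ring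
        rw [this, Complex.im_ofReal_mul, ha, mul_zero]
    intro i j
    have h4 := h3 (Pi.single j 1) (by
      have : (Pi.single j 1 : Fin n → ℚ) ∈ (⊤ : Submodule ℚ (Fin n → ℚ)) := trivial
      rw [← h2] at this
      exact this) i
    rw [Finset.sum_eq_single j] at h4
    · simpa using h4
    · intro b _ hb
      rw [Pi.single_eq_of_ne hb, Rat.cast_zero, zero_mul]
    · intro h
      exact absurd (Finset.mem_univ j) h
  · right
    push Not at hc
    -- all `w` have `w M` imaginary
    have h3 : ∀ w ∈ Submodule.span ℚ {w : Fin m → ℚ | (∀ j, (∑ i, (w i : ℂ) * M i j).im = 0) ∨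
        ∀ j, (∑ i, (w i : ℂ) * M i j).re = 0}, ∀ j, (∑ i, (w i : ℂ) * M i j).re = 0 := by
      intro w hw
      refine Submodule.span_induction ?_ ?_ ?_ ?_ hw
      · rintro w (h | h)
        · have hw0 : w = 0 := by
            by_contra hw0
            obtain ⟨j, hj⟩ := hc w hw0
            exact hj (h j)
          intro i
          rw [hw0]
          simp
        · exact h
      · intro i
        simp
      · intro a b _ _ ha hb j
        have : ∑ i, (((a + b) i : ℚ) : ℂ) * M i j =
            ∑ i, (a i : ℂ) * M i j + ∑ i, (b i : ℂ) * M i j := by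
          rw [← Finset.sum_add_distrib]
          exact Finset.sum_congr rfl fun i _ => by rw [Pi.add_apply, Rat.cast_add]; ring
        rw [this, Complex.add_re, ha, hb, add_zero]
      · intro c a _ ha j
        have : ∑ i, (((c • a) i : ℚ) : ℂ) * M i j = ((c : ℝ) : ℂ) * ∑ i, (a i : ℂ) * M i j := by
          rw [Finset.mul_sum]
          exact Finset.sum_congr rfl fun i _ => by
            rw [Pi.smul_apply, smul_eq_mul, Rat.cast_mul, Complex.ofReal_ratCast]; ring
        rw [this, Complex.re_ofReal_mul, ha, mul_zero]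
    intro i j
    have h4 := h3 (Pi.single i 1) (by rw [h1]; trivial) j
    rw [Finset.sum_eq_single i] at h4
    · simpa using h4
    · intro b _ hb
      rw [Pi.single_eq_of_ne hb, Rat.cast_zero, zero_mul]
    · intro h
      exact absurd (Finset.mem_univ i) h

/-- matrices of any rank with real kernel -/
theorem two_thirds {m n : ℕ} {M : Matrix (Fin m) (Fin n) ℂ} (hM : ∀ i j, M i j ∈ Lg) (hR : RK M)
    (hrk : M.rank * (2 * m + n) < 2 * m * n) :
    ∃ (w : Fin m → ℚ) (v : Fin n → ℚ), w ≠ 0 ∧ v ≠ 0 ∧ ((bil M w v).im = 0 ∨ (bil M w v).re = 0) := by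
  classical
  have hm : 1 ≤ m := by
    by_contra h
    obtain rfl : m = 0 := by omega
    simp at hrk
  have hn : 1 ≤ n := by
    by_contra h
    obtain rfl : n = 0 := by omega
    simp at hrk
  obtain ⟨U, hUdef⟩ : ∃ U : Matrix (Fin (m + m)) (Fin n) ℂ,
    U = Matrix.of (Fin.append M (M.map conj)) := ⟨_, rfl⟩
  have hU1 : ∀ i j, U (Fin.castAdd m i) j = M i j := fun i j => by
    rw [hUdef, Matrix.of_apply, Fin.append_left]
  have hU2 : ∀ i j, U (Fin.natAdd m i) j = conj (M i j) := fun i j => by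
    rw [hUdef, Matrix.of_apply, Fin.append_right]
    rfl
  have hU : U.rank ≤ M.rank := rank_le_of_ker M U fun k hk => by
    have h1 := rk_conj hR hk
    funext i
    refine Fin.addCases (fun i => ?_) (fun i => ?_) i
    · have := congrFun hk i
      simp only [Matrix.mulVec, dotProduct, hU1] at this ⊢
      exact this
    · have := congrFun h1 i
      simp only [Matrix.mulVec, dotProduct, hU2] at this ⊢
      exact this
  obtain ⟨x, y, hxy⟩ := rank_fac U hU
  obtain ⟨a, s, ha, hs, h⟩ := wm_int obs_complex (b := m + m) (l := n) (r := M.rank) (by omega) hn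
    (by
      have e : m + m + n = 2 * m + n := by ring
      have e' : (m + m) * n = 2 * m * n := by ring
      rw [e, e']
      exact hrk) U (fun i j => by
      refine Fin.addCases (fun i => ?_) (fun i => ?_) i
      · rw [hU1]
        exact hM i j
      · rw [hU2]
        exact conj_log (hM i j)) x y hxy
  set a₁ : Fin m → ℚ := fun i => (a (Fin.castAdd m i) : ℚ) with ha₁
  set a₂ : Fin m → ℚ := fun i => (a (Fin.natAdd m i) : ℚ) with ha₂
  set t : Fin n → ℚ := fun j => (s j : ℚ) with ht
  have ht0 : t ≠ 0 := cast_ne hs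
  have h1 : bil M a₁ t + conj (bil M a₂ t) = 0 := by
    rw [← bil_conj, ← h, Fin.sum_univ_add]
    congr 1
    · rw [ha₁, ht, sum_int]
      exact Finset.sum_congr rfl fun i _ => Finset.sum_congr rfl fun j _ => by rw [hU1]
    · rw [ha₂, ht, sum_int]
      exact Finset.sum_congr rfl fun i _ => Finset.sum_congr rfl fun j _ => by
        rw [hU2, Matrix.map_apply]
  have h2 : bil M a₁ t = - conj (bil M a₂ t) := eq_neg_of_add_eq_zero_left h1
  by_cases h3 : a₁ + a₂ = 0
  · have h4 : a₁ - a₂ ≠ 0 := by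
      intro h4
      apply ha
      have h5 : ∀ i, a₁ i = 0 ∧ a₂ i = 0 := by
        intro i
        have e1 := congrFun h3 i
        have e2 := congrFun h4 i
        simp only [Pi.add_apply, Pi.sub_apply, Pi.zero_apply] at e1 e2
        constructor <;> linarith
      funext i
      refine Fin.addCases (fun i => ?_) (fun i => ?_) i
      · have := (h5 i).1
        simpa [ha₁] using this
      · have := (h5 i).2
        simpa [ha₂] using this
    refine ⟨a₁ - a₂, t, h4, ht0, Or.inl ?_⟩
    rw [bil_sub, h2]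
    simp
  · refine ⟨a₁ + a₂, t, h3, ht0, Or.inr ?_⟩
    rw [bil_add, h2]
    simp

end Pool.Agent.U979.HR
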