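import Pool.Agent.U979.HR.Cplx

set_option autoImplicit false

/-!
# Extremal matrices of logarithms with a kernel of symmetric or Hermitian type (helper979)
-/

namespace Pool.Agent.U979.HR
open Module Finset ComplexConjugate
open Pool.Agent.Y787.AS
open Pool.Agent.H301R2.SSE (Lg)

section dag

variable {E : Type} [Field E] [CharZero E]

/-- the form is `w M v` -/
theorem bil_eq_dot {m n : ℕ} (M : Matrix (Fin m) (Fin n) E) (w : Fin m → ℚ) (v : Fin n → ℚ) :
    bil M w v = ∑ j, (∑ i, (w i : E) * M i j) * (v j : E) := by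
  unfold bil
  rw [Finset.sum_comm]
  exact Finset.sum_congr rfl fun j _ => by rw [Finset.sum_mul]

/-- **Kernels of Hermitian type.** `σ` is an involution of the field (or the identity) which respects the
logarithms. -/
theorem dagger {Λ : Submodule ℚ E} (hE : Emb Λ) {n r : ℕ} (hr : 1 ≤ r)
    (hn : r * (n + n) = n * n) (M : Matrix (Fin n) (Fin n) E) (hM : ∀ i j, M i j ∈ Λ)
    (hrk : M.rank ≤ r) (hz : NoZ M) (σ : E →+* E) (hσ : ∀ x, σ (σ x) = x)
    (hσΛ : ∀ x ∈ Λ, σ x ∈ Λ)
    (hker : ∀ k : Fin n → E, M.mulVec k = 0 → (M.transpose.map σ).mulVec k = 0) :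
    (∃ P : Matrix (Fin n) (Fin n) ℚ, P.det ≠ 0 ∧
      P.map (fun q => (q : E)) * M = M + M.transpose.map σ) ∨ M.transpose.map σ = -M := by
  classical
  obtain ⟨A, hA⟩ := saturated_mat hE hr hn M hM hrk hz (M.transpose.map σ)
    (fun i j => hσΛ _ (hM j i)) hker
  have hσq : ∀ q : ℚ, σ (q : E) = (q : E) := fun q => map_ratCast σ q
  -- entries
  have h1 : ∀ i j, σ (M j i) = ∑ l, ((A i l : ℚ) : E) * M l j := fun i j => by
    have h2 := congrFun (congrFun hA i) j
    rw [Matrix.map_apply, Matrix.transpose_apply, Matrix.mul_apply] at h2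
    exact h2
  have h2 : ∀ i j, M j i = ∑ l, ((A i l : ℚ) : E) * σ (M l j) := fun i j => by
    have h3 := congrArg σ (h1 i j)
    rw [hσ, map_sum] at h3
    rw [h3]
    exact Finset.sum_congr rfl fun l _ => by rw [map_mul, hσq]
  -- `M = A M Aᵀ`
  have h3 : ∀ i j, M j i = ∑ l, ((A i l : ℚ) : E) * ∑ k, ((A j k : ℚ) : E) * M k l := fun i j => by
    rw [h2 i j]
    exact Finset.sum_congr rfl fun l _ => by rw [h1 j l]
  by_cases hdet : (1 + A).det = 0
  · right
    obtain ⟨w, hw, hwA⟩ := Matrix.exists_vecMul_eq_zero_iff.2 hdet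
    have hwA' : ∀ k, ∑ j, w j * A j k = - w k := by
      intro k
      have h4 := congrFun hwA k
      simp only [Matrix.vecMul, dotProduct, Matrix.add_apply, Pi.zero_apply, mul_add,
        Finset.sum_add_distrib] at h4
      have h5 : ∑ j, w j * (1 : Matrix (Fin n) (Fin n) ℚ) j k = w k := by
        rw [Finset.sum_eq_single k]
        · rw [Matrix.one_apply_eq, mul_one]
        · intro b _ hb
          rw [Matrix.one_apply_ne hb, mul_zero]
        · intro h
          exact absurd (Finset.mem_univ k) h
      rw [h5] at h4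
      linarith
    -- `w M = - w M Aᵀ`
    have h4 : ∀ i, ∑ j, (w j : E) * M j i = - ∑ l, ((A i l : ℚ) : E) * ∑ k, (w k : E) * M k l := by
      intro i
      have e1 : ∑ j, (w j : E) * M j i =
          ∑ l, ((A i l : ℚ) : E) * ∑ k, (∑ j, (w j : E) * ((A j k : ℚ) : E)) * M k l := by
        calc ∑ j, (w j : E) * M j i
            = ∑ j, (w j : E) * ∑ l, ((A i l : ℚ) : E) * ∑ k, ((A j k : ℚ) : E) * M k l :=
              Finset.sum_congr rfl fun j _ => by rw [← h3 i j]
          _ = ∑ j, ∑ l, ∑ k, (w j : E) * (((A i l : ℚ) : E) * (((A j k : ℚ) : E) * M k l)) := by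
              refine Finset.sum_congr rfl fun j _ => ?_
              rw [Finset.mul_sum]
              refine Finset.sum_congr rfl fun l _ => ?_
              rw [Finset.mul_sum, Finset.mul_sum]
          _ = ∑ l, ∑ j, ∑ k, (w j : E) * (((A i l : ℚ) : E) * (((A j k : ℚ) : E) * M k l)) :=
              Finset.sum_comm
          _ = _ := by
              refine Finset.sum_congr rfl fun l _ => ?_
              rw [Finset.sum_comm, Finset.mul_sum]
              refine Finset.sum_congr rfl fun k _ => ?_
              rw [Finset.sum_mul, Finset.mul_sum]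
              exact Finset.sum_congr rfl fun j _ => by ring
      rw [e1, ← Finset.sum_neg_distrib]
      refine Finset.sum_congr rfl fun l _ => ?_
      rw [← mul_neg, ← Finset.sum_neg_distrib]
      congr 1
      refine Finset.sum_congr rfl fun k _ => ?_
      have e2 : ∑ j, (w j : E) * ((A j k : ℚ) : E) = - (w k : E) := by
        have := congrArg (fun q : ℚ => (q : E)) (hwA' k)
        push_cast at this
        exact this
      rw [e2]
      ring
    -- all vectors are eigenvectors
    have h5 : ∀ v : Fin n → ℚ, v + Matrix.vecMul v A = 0 := by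
      intro v
      by_contra hv
      refine hz w (v + Matrix.vecMul v A) hw hv ?_
      rw [bil_eq_dot]
      have e1 : ∀ j, (((v + Matrix.vecMul v A) j : ℚ) : E) =
          (v j : E) + ∑ i, (v i : E) * ((A i j : ℚ) : E) := fun j => by
        simp only [Pi.add_apply, Matrix.vecMul, dotProduct]
        push_cast
        rfl
      simp only [e1, mul_add, Finset.sum_add_distrib]
      have e2 : ∑ j, (∑ i, (w i : E) * M i j) * (v j : E) =
          - ∑ j, (∑ i, (w i : E) * M i j) * ∑ i, (v i : E) * ((A i j : ℚ) : E) := by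
        calc ∑ j, (∑ i, (w i : E) * M i j) * (v j : E)
            = ∑ j, ∑ l, - (((A j l : ℚ) : E) * (∑ k, (w k : E) * M k l) * (v j : E)) := by
              refine Finset.sum_congr rfl fun j _ => ?_
              rw [h4 j, neg_mul, Finset.sum_mul, Finset.sum_neg_distrib]
          _ = ∑ l, ∑ j, - (((A j l : ℚ) : E) * (∑ k, (w k : E) * M k l) * (v j : E)) :=
              Finset.sum_comm
          _ = _ := by
              rw [← Finset.sum_neg_distrib]
              refine Finset.sum_congr rfl fun l _ => ?_
              rw [Finset.mul_sum, ← Finset.sum_neg_distrib]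
              exact Finset.sum_congr rfl fun j _ => by ring
      rw [e2, neg_add_cancel]
    ext i j
    rw [Matrix.map_apply, Matrix.transpose_apply, h1 i j, Matrix.neg_apply]
    have h6 := h5 (Pi.single i 1)
    have h7 : ∀ l, A i l = - (Pi.single i 1 : Fin n → ℚ) l := by
      intro l
      have h8 := congrFun h6 l
      rw [Pi.add_apply, Matrix.single_one_vecMul, Pi.zero_apply] at h8
      have h9 : (Pi.single i 1 : Fin n → ℚ) l + A i l = 0 := h8
      linarith
    rw [Finset.sum_eq_single i]
    · rw [h7 i, Pi.single_eq_same]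
      push_cast
      ring
    · intro b _ hb
      rw [h7 b, Pi.single_eq_of_ne hb]
      simp
    · intro h
      exact absurd (Finset.mem_univ i) h
  · left
    refine ⟨1 + A, hdet, ?_⟩
    rw [hA]
    have : (1 + A).map (fun q => (q : E)) = 1 + A.map (fun q => (q : E)) := by
      ext i j
      rw [Matrix.map_apply, Matrix.add_apply, Matrix.add_apply, Matrix.map_apply]
      by_cases h : i = j
      · subst h
        rw [Matrix.one_apply_eq, Matrix.one_apply_eq]
        push_cast
        ring
      · rw [Matrix.one_apply_ne h, Matrix.one_apply_ne h]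
        push_cast
        ring
    rw [this, Matrix.add_mul, Matrix.one_mul]

end dag

/-- two matrices on top of each other -/
theorem stack {m m' n : ℕ} {M : Matrix (Fin m) (Fin n) ℂ} {N : Matrix (Fin m') (Fin n) ℂ}
    (hM : ∀ i j, M i j ∈ Lg) (hN : ∀ i j, N i j ∈ Lg)
    (hker : ∀ k : Fin n → ℂ, M.mulVec k = 0 → N.mulVec k = 0)
    (hrk : M.rank * (m + m' + n) < (m + m') * n) :
    ∃ (w : Fin m → ℚ) (w' : Fin m' → ℚ) (v : Fin n → ℚ), ¬ (w = 0 ∧ w' = 0) ∧ v ≠ 0 ∧
      bil M w v + bil N w' v = 0 := by
  classical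
  have hm : 1 ≤ m + m' := by
    by_contra h
    obtain h0 : m + m' = 0 := by omega
    simp [h0] at hrk
  have hn : 1 ≤ n := by
    by_contra h
    obtain rfl : n = 0 := by omega
    simp at hrk
  obtain ⟨U, hUdef⟩ : ∃ U : Matrix (Fin (m + m')) (Fin n) ℂ,
    U = Matrix.of (Fin.append M N) := ⟨_, rfl⟩
  have hU1 : ∀ i j, U (Fin.castAdd m' i) j = M i j := fun i j => by
    rw [hUdef, Matrix.of_apply, Fin.append_left]
  have hU2 : ∀ i j, U (Fin.natAdd m i) j = N i j := fun i j => by
    rw [hUdef, Matrix.of_apply, Fin.append_right]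
  have hU : U.rank ≤ M.rank := rank_le_of_ker M U fun k hk => by
    have h1 := hker k hk
    funext i
    refine Fin.addCases (fun i => ?_) (fun i => ?_) i
    · have := congrFun hk i
      simp only [Matrix.mulVec, dotProduct, hU1] at this ⊢
      exact this
    · have := congrFun h1 i
      simp only [Matrix.mulVec, dotProduct, hU2] at this ⊢
      exact this
  obtain ⟨x, y, hxy⟩ := rank_fac U hU
  obtain ⟨a, s, ha, hs, h⟩ := wm_int obs_complex (b := m + m') (l := n) (r := M.rank) hm hn
    hrk U (fun i j => by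
      refine Fin.addCases (fun i => ?_) (fun i => ?_) i
      · rw [hU1]
        exact hM i j
      · rw [hU2]
        exact hN i j) x y hxy
  refine ⟨fun i => (a (Fin.castAdd m' i) : ℚ), fun i => (a (Fin.natAdd m i) : ℚ),
    fun j => (s j : ℚ), ?_, cast_ne hs, ?_⟩
  · rintro ⟨h1, h2⟩
    apply ha
    funext i
    refine Fin.addCases (fun i => ?_) (fun i => ?_) i
    · exact Int.cast_eq_zero.1 (congrFun h1 i)
    · exact Int.cast_eq_zero.1 (congrFun h2 i)
  · rw [← h, Fin.sum_univ_add]
    congr 1
    · rw [sum_int]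
      exact Finset.sum_congr rfl fun i _ => Finset.sum_congr rfl fun j _ => by rw [hU1]
    · rw [sum_int]
      exact Finset.sum_congr rfl fun i _ => Finset.sum_congr rfl fun j _ => by rw [hU2]

/-- the numbers `M i j`, `N i j` are independent over `ℚ` -/
theorem stack_indep {m m' n : ℕ} {M : Matrix (Fin m) (Fin n) ℂ} {N : Matrix (Fin m') (Fin n) ℂ}
    (hM : ∀ i j, M i j ∈ Lg) (hN : ∀ i j, N i j ∈ Lg)
    (hker : ∀ k : Fin n → ℂ, M.mulVec k = 0 → N.mulVec k = 0)
    (hind : LinearIndependent ℚ (Sum.elim (fun q : Fin m × Fin n => M q.1 q.2)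
      (fun q : Fin m' × Fin n => N q.1 q.2))) :
    (m + m') * n ≤ M.rank * (m + m' + n) := by
  classical
  by_contra hlt
  push Not at hlt
  obtain ⟨w, w', v, hw, hv, h⟩ := stack hM hN hker hlt
  rw [Fintype.linearIndependent_iff] at hind
  have h1 := hind (Sum.elim (fun q => w q.1 * v q.2) (fun q => w' q.1 * v q.2)) (by
    rw [Fintype.sum_sum_type]
    simp only [Sum.elim_inl, Sum.elim_inr, Fintype.sum_prod_type]
    rw [← h]
    unfold bil
    congr 1
    · refine Finset.sum_congr rfl fun i _ => Finset.sum_congr rfl fun j _ => ?_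
      rw [Rat.smul_def]
      push_cast
      ring
    · refine Finset.sum_congr rfl fun i _ => Finset.sum_congr rfl fun j _ => ?_
      rw [Rat.smul_def]
      push_cast
      ring)
  obtain ⟨j, hj⟩ : ∃ j, v j ≠ 0 := by
    by_contra h2
    push Not at h2
    exact hv (funext h2)
  apply hw
  constructor
  · funext i
    have h2 := h1 (Sum.inl (i, j))
    simp only [Sum.elim_inl] at h2
    exact (mul_eq_zero.1 h2).resolve_right hj
  · funext i
    have h2 := h1 (Sum.inr (i, j))
    simp only [Sum.elim_inr] at h2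
    exact (mul_eq_zero.1 h2).resolve_right hj

end Pool.Agent.U979.HR
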